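import Mathlib

/-!
# Strong regularity and isomorphism-permutations of self-complementary graphs

The circulant graph on `ZMod 13` with connection set `{1, 2, 4, 9, 11, 12}` is a regular
self-complementary graph with `F(G) = V(G)` and `N(G) = E(G)` which is not strongly regular.
-/

set_option autoImplicit false

namespace Pool.Agent.Results.MP_a93e77_co.NotIff

/-- `P` is an isomorphism-permutation of `G`: an isomorphism from `G` onto its complement. -/
def IsoPerm {V : Type} (G : SimpleGraph V) (P : Equiv.Perm V) : Prop :=
  ∀ u v : V, u ≠ v → (G.Adj u v ↔ ¬ G.Adj (P u) (P v))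

/-- `G` is isomorphic to its complement. -/
def SelfComplementary {V : Type} (G : SimpleGraph V) : Prop := Nonempty (G ≃g Gᶜ)

/-- `G` is regular. -/
def Regular {V : Type} (G : SimpleGraph V) : Prop := ∃ d : ℕ, ∀ v : V, (G.neighborSet v).ncard = d

/-- The vertices fixed by at least one isomorphism-permutation. -/
def fixedSet {V : Type} (G : SimpleGraph V) : Set V := {v | ∃ P, IsoPerm G P ∧ P v = v}

/-- The edges whose ends are consecutive in a cycle of some isomorphism-permutation. -/
def consecutiveSet {V : Type} (G : SimpleGraph V) : Set (Sym2 V) :=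
  {e | e ∈ G.edgeSet ∧ ∃ u v : V, e = s(u, v) ∧ ∃ P, IsoPerm G P ∧ P u = v}

/-- All edges lie in equally many triangles and all pairs of distinct nonadjacent vertices have
equally many common neighbours. -/
def StronglyRegular {V : Type} (G : SimpleGraph V) : Prop :=
  Regular G ∧ (∃ l : ℕ, ∀ u v : V, G.Adj u v → (G.commonNeighbors u v).ncard = l) ∧
    ∃ m : ℕ, ∀ u v : V, u ≠ v → ¬ G.Adj u v → (G.commonNeighbors u v).ncard = m

/-- The connection set. -/
def conn : Finset (ZMod 13) := {1, 2, 4, 9, 11, 12}

/-- The circulant graph. -/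
def circ : SimpleGraph (ZMod 13) where
  Adj x y := y - x ∈ conn
  symm := ⟨by
    intro x y h
    have key : ∀ d : ZMod 13, d ∈ conn → -d ∈ conn := by decide
    have := key _ h
    rwa [neg_sub] at this⟩
  loopless := ⟨by
    intro x h
    rw [sub_self] at h
    revert h
    decide⟩

instance : DecidableRel circ.Adj := fun x y => inferInstanceAs (Decidable (y - x ∈ conn))

theorem circ_adj (x y : ZMod 13) : circ.Adj x y ↔ y - x ∈ conn := Iff.rfl

/-- The permutation `x ↦ 8 x + c`. -/
def perm (c : ZMod 13) : Equiv.Perm (ZMod 13) where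
  toFun x := 8 * x + c
  invFun x := 5 * (x - c)
  left_inv x := by
    have : (5 * 8 : ZMod 13) = 1 := by decide
    calc 5 * (8 * x + c - c) = (5 * 8) * x := by ring
      _ = x := by rw [this, one_mul]
  right_inv x := by
    have : (8 * 5 : ZMod 13) = 1 := by decide
    calc 8 * (5 * (x - c)) + c = (8 * 5) * (x - c) + c := by ring
      _ = x := by rw [this]; ring

theorem perm_isoPerm (c : ZMod 13) : IsoPerm circ (perm c) := by
  intro u v huv
  have key : ∀ d : ZMod 13, d ≠ 0 → (d ∈ conn ↔ ¬ (8 * d) ∈ conn) := by decide
  have h : perm c v - perm c u = 8 * (v - u) := by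
    show (8 * v + c) - (8 * u + c) = 8 * (v - u)
    ring
  rw [circ_adj, circ_adj, h]
  exact key _ (sub_ne_zero.2 huv.symm)

theorem exists_perm (u v : ZMod 13) : ∃ P, IsoPerm circ P ∧ P u = v :=
  ⟨perm (v - 8 * u), perm_isoPerm _, by show 8 * u + (v - 8 * u) = v; ring⟩

theorem circ_sc : SelfComplementary circ := by
  refine ⟨⟨perm 0, ?_⟩⟩
  intro u v
  rw [SimpleGraph.compl_adj]
  by_cases huv : u = v
  · subst huv
    simp
  · have h := perm_isoPerm 0 u v huv
    constructor
    · rintro ⟨-, h2⟩
      exact h.2 h2
    · intro h2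
      exact ⟨fun he => huv ((perm 0).injective he), h.1 h2⟩

theorem circ_regular : Regular circ := by
  refine ⟨6, fun v => ?_⟩
  have h : circ.neighborSet v = ((fun d => v + d) '' (conn : Set (ZMod 13))) := by
    ext w
    rw [SimpleGraph.mem_neighborSet, circ_adj, Set.mem_image]
    constructor
    · intro h
      exact ⟨w - v, h, by ring⟩
    · rintro ⟨d, hd, rfl⟩
      have : v + d - v = d := by ring
      rw [this]
      exact hd
  rw [h, Set.ncard_image_of_injective _ (add_right_injective v), Set.ncard_coe_finset]
  decide

theorem common01 : (circ.commonNeighbors 0 1).ncard = 2 := by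
  have h : circ.commonNeighbors 0 1 = ((Finset.univ.filter
      (fun w => circ.Adj 0 w ∧ circ.Adj 1 w) : Finset (ZMod 13)) : Set (ZMod 13)) := by
    ext w
    simp [SimpleGraph.mem_commonNeighbors]
  rw [h, Set.ncard_coe_finset]
  decide

theorem common02 : (circ.commonNeighbors 0 2).ncard = 3 := by
  have h : circ.commonNeighbors 0 2 = ((Finset.univ.filter
      (fun w => circ.Adj 0 w ∧ circ.Adj 2 w) : Finset (ZMod 13)) : Set (ZMod 13)) := by
    ext w
    simp [SimpleGraph.mem_commonNeighbors]
  rw [h, Set.ncard_coe_finset]
  decide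

theorem circ_not_srg : ¬ StronglyRegular circ := by
  rintro ⟨-, ⟨l, hl⟩, -⟩
  have h1 := hl 0 1 (by decide)
  have h2 := hl 0 2 (by decide)
  rw [common01] at h1
  rw [common02] at h2
  omega

/-- **Q1 is false**: there is a finite regular self-complementary graph which is not strongly
regular although every vertex is fixed by some isomorphism-permutation and every edge joins two
consecutive vertices of a cycle of some isomorphism-permutation. -/
theorem result : ∃ (V : Type) (_ : Finite V) (G : SimpleGraph V),
    Regular G ∧ SelfComplementary G ∧ fixedSet G = Set.univ ∧ consecutiveSet G = G.edgeSet ∧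
      ¬ StronglyRegular G := by
  refine ⟨ZMod 13, inferInstance, circ, circ_regular, circ_sc, ?_, ?_, circ_not_srg⟩
  · ext v
    simp only [fixedSet, Set.mem_setOf_eq, Set.mem_univ, iff_true]
    exact exists_perm v v
  · ext e
    constructor
    · rintro ⟨h, -⟩
      exact h
    · intro h
      induction e using Sym2.ind with
      | _ u v => exact ⟨h, u, v, rfl, exists_perm u v⟩

end Pool.Agent.Results.MP_a93e77_co.NotIff
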